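import Pool.Agent.Helper4.WR.Main

/-!
# Chains of two rational curves on weighted projective schemes over `C₁` fields: the main theorem
-/

set_option autoImplicit false
set_option linter.all false

namespace Pool.Agent.Helper4.WR

open MvPolynomial Pool.Agent.K369

variable {k : Type*} [Field k] {m r : ℕ}

/-- direct link of two vectors by a rational curve of degree one -/
def Lnk (a : Fin m → ℕ) (F : Fin r → MvPolynomial (Fin m) k) (x y : Fin m → k) : Prop :=
  ∃ φ : Fin m → MvPolynomial (Fin 2) k, (∀ i, (φ i).IsHomogeneous (1 * a i)) ∧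
    (∀ j, bind₁ φ (F j) = 0) ∧
    ∃ (s t : Fin 2 → k) (b c : k), s ≠ 0 ∧ t ≠ 0 ∧ b ≠ 0 ∧ c ≠ 0 ∧ (∀ i, eval s (φ i) = b ^ a i * x i) ∧
      ∀ i, eval t (φ i) = c ^ a i * y i

theorem lnk_of_curve {a : Fin m → ℕ} (ha : ∀ i, 1 ≤ a i) {F : Fin r → MvPolynomial (Fin m) k} {d : Fin r → ℕ}
    (hF : ∀ j, IsWeightedHomogeneous a (F j) (d j)) (g : Fin m → Polynomial k) (hg : ∀ i, (g i).natDegree ≤ a i)
    (h : ∀ j, aeval g (F j) = 0) : Lnk a F (fun i => (g i).coeff 0) (fun i => (g i).coeff (a i)) := by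
  have hφ : ∀ i, ((g i).homogenize (a i)).IsHomogeneous (1 * a i) := fun i => by
    rw [one_mul]; exact Polynomial.isHomogeneous_homogenize _
  refine ⟨fun i => (g i).homogenize (a i), hφ, fun j => ?_, ![0, 1], ![1, 0], 1, 1, ?_, ?_, one_ne_zero,
    one_ne_zero, fun i => ?_, fun i => ?_⟩
  · have h1 := hom_bind₁ (hF j) 1 (fun i => (g i).homogenize (a i)) hφ
    have h2 : aeval ![Polynomial.X, 1] (bind₁ (fun i => (g i).homogenize (a i)) (F j)) = (0 : Polynomial k) := by
      rw [← h j, aeval_bind₁]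
      congr 2
      funext i
      exact Polynomial.aeval_homogenize_X_one _ (hg i)
    have h3 := Polynomial.homogenize_eq_of_isHomogeneous h1 h2
    rw [← h3, Polynomial.homogenize_zero]
  · intro h0; have := congrFun h0 1; simp at this
  · intro h0; have := congrFun h0 0; simp at this
  · rw [one_pow, one_mul, Polynomial.eval_homogenize (hg i) _ (by simp)]
    simp [Polynomial.coeff_zero_eq_eval_zero]
  · rw [one_pow, one_mul]
    exact eval_one_zero_homogenize _ _

/-- the index set of the variables -/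
abbrev Vr (a : Fin m → ℕ) : Type :=
  (Σ s : (Σ i : Fin m, Fin (a i)), Fin (s.2.val + 1)) ⊕ (Σ s : (Σ i : Fin m, Fin (a i - 1)), Fin (s.2.val + 1))

/-- the index set of the equations -/
abbrev Eq' (d : Fin r → ℕ) : Type := (Σ j : Fin r, Fin (d j)) ⊕ (Σ j : Fin r, Fin (d j - 1))

/-- the degrees of the equations -/
def dg (d : Fin r → ℕ) : Eq' d → ℕ := Sum.elim (fun s => s.2.val + 1) (fun s => s.2.val + 1)

theorem sum_dg (d : Fin r → ℕ) : ∑ s, dg d s = ∑ j, d j ^ 2 := by
  rw [Fintype.sum_sum_type]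
  simp only [dg, Sum.elim_inl, Sum.elim_inr]
  rw [Fintype.sum_sigma, Fintype.sum_sigma, ← Finset.sum_add_distrib]
  exact Finset.sum_congr rfl fun j _ => tri (d j)

theorem card_Vr (a : Fin m → ℕ) : Fintype.card (Vr a) = ∑ i, a i ^ 2 := by
  rw [Fintype.card_sum, Fintype.card_sigma, Fintype.card_sigma]
  simp only [Fintype.card_fin]
  rw [Fintype.sum_sigma, Fintype.sum_sigma, ← Finset.sum_add_distrib]
  exact Finset.sum_congr rfl fun j _ => tri (a j)

theorem chain (hk : IsC1 k) (hn : ∀ e, 1 ≤ e → HasNormic k e) {a : Fin m → ℕ} (ha : ∀ i, 1 ≤ a i)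
    {F : Fin r → MvPolynomial (Fin m) k} {d : Fin r → ℕ} (hd : ∀ j, 1 ≤ d j)
    (hF : ∀ j, IsWeightedHomogeneous a (F j) (d j))
    (hfin : ∀ x : Fin m → k, (∀ j, eval x (F j) = 0) → (∀ i, a i = 1 → x i = 0) → x = 0)
    (hsum : ∑ j, d j ^ 2 < ∑ i, a i ^ 2) (P Q : Fin m → k) (hP : ∀ j, eval P (F j) = 0)
    (hQ : ∀ j, eval Q (F j) = 0) :
    ∃ R : Fin m → k, R ≠ 0 ∧ (∀ j, eval R (F j) = 0) ∧ Lnk a F P R ∧ Lnk a F Q R := by
  classical
  choose Nm hNm hNm0 using fun u : ℕ => hn (u + 1) (by omega)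
  let cc : (i : Fin m) → Fin (a i) → MvPolynomial (Vr a) k := fun i u =>
    rename (fun w : Fin (u.val + 1) => (Sum.inl ⟨⟨i, u⟩, w⟩ : Vr a)) (Nm u.val)
  let cd : (i : Fin m) → Fin (a i) → MvPolynomial (Vr a) k := fun i u =>
    if h : u.val < a i - 1 then rename (fun w : Fin (u.val + 1) => (Sum.inr ⟨⟨i, ⟨u.val, h⟩⟩, w⟩ : Vr a)) (Nm u.val)
    else cc i u
  have hcc : ∀ i u, (cc i u).IsHomogeneous (u.val + 1) := fun i u => (hNm u.val).rename_isHomogeneous
  have hcd : ∀ i u, (cd i u).IsHomogeneous (u.val + 1) := fun i u => by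
    show (if h : u.val < a i - 1 then _ else _ : MvPolynomial (Vr a) k).IsHomogeneous _
    split_ifs with h
    · exact (hNm u.val).rename_isHomogeneous
    · exact hcc i u
  let G1 := crv a (fun i => (C (P i) : MvPolynomial (Vr a) k)) cc
  let G2 := crv a (fun i => (C (Q i) : MvPolynomial (Vr a) k)) cd
  let f : Eq' d → MvPolynomial (Vr a) k :=
    Sum.elim (fun s => (aeval G1 (F s.1)).coeff (s.2.val + 1)) (fun s => (aeval G2 (F s.1)).coeff (s.2.val + 1))
  have hf : ∀ s, (f s).IsHomogeneous (dg d s) := by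
    rintro (s | s)
    · exact Gr.aeval _ (Gr.crv a P cc hcc) (F s.1) (s.2.val + 1)
    · exact Gr.aeval _ (Gr.crv a Q cd hcd) (F s.1) (s.2.val + 1)
  obtain ⟨z, hz, hz0⟩ := lang_nagata hk hn (dg d) (by rintro (s | s) <;> simp [dg]) f hf
    (by rw [sum_dg, card_Vr]; exact hsum)
  let x : (i : Fin m) → Fin (a i) → k := fun i u => eval z (cc i u)
  let y : (i : Fin m) → Fin (a i) → k := fun i u => eval z (cd i u)
  let g1 := crv a P x
  let g2 := crv a Q y
  have hlast : ∀ i, a i - 1 < a i := fun i => by have := ha i; omega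
  let R : Fin m → k := fun i => x i ⟨a i - 1, hlast i⟩
  have hyR : ∀ i, y i ⟨a i - 1, hlast i⟩ = R i := fun i => by
    show eval z (if h : a i - 1 < a i - 1 then _ else _) = _
    rw [dif_neg (lt_irrefl _)]
  have top1 : ∀ i, (g1 i).coeff (a i) = R i := fun i => by
    have h := crv_succ a P x i ⟨a i - 1, hlast i⟩
    have h2 : a i - 1 + 1 = a i := by have := ha i; omega
    simp only [h2] at h
    exact h
  have top2 : ∀ i, (g2 i).coeff (a i) = R i := fun i => by
    have h := crv_succ a Q y i ⟨a i - 1, hlast i⟩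
    have h2 : a i - 1 + 1 = a i := by have := ha i; omega
    simp only [h2] at h
    rw [← hyR i]
    exact h
  have dg1 : ∀ i, (g1 i).natDegree ≤ 1 * a i := fun i => by rw [one_mul]; exact crv_deg a P x i
  have dg2 : ∀ i, (g2 i).natDegree ≤ 1 * a i := fun i => by rw [one_mul]; exact crv_deg a Q y i
  have cf0 : ∀ (g : Fin m → Polynomial k) (S : Fin m → k), (∀ i, (g i).coeff 0 = S i) → ∀ j, eval S (F j) = 0 →
      (aeval g (F j)).coeff 0 = 0 := fun g S hS j hj => by
    rw [Polynomial.coeff_zero_eq_eval_zero]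
    have e2 : ((Polynomial.aeval (0 : k) : Polynomial k →ₐ[k] k)).comp (aeval g) = aeval S := by
      apply MvPolynomial.algHom_ext
      intro i
      rw [AlgHom.comp_apply, aeval_X, aeval_X, Polynomial.coe_aeval_eq_eval, ← Polynomial.coeff_zero_eq_eval_zero]
      exact hS i
    have e3 := congrArg (fun φ : MvPolynomial (Fin m) k →ₐ[k] k => φ (F j)) e2
    simp only [AlgHom.comp_apply] at e3
    rw [Polynomial.coe_aeval_eq_eval] at e3
    rw [e3, ← hj]
    rfl
  have z1 : ∀ j, aeval g1 (F j) = 0 := fun j => by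
    ext v
    rw [Polynomial.coeff_zero]
    rcases Nat.eq_zero_or_pos v with rfl | hv
    · exact cf0 g1 P (fun i => crv_zero a P x i) j (hP j)
    · by_cases hvd : v ≤ d j
      · have h := hz0 (Sum.inl ⟨j, ⟨v - 1, by omega⟩⟩)
        have hv1 : v - 1 + 1 = v := by omega
        have h' : eval z ((aeval G1 (F j)).coeff (v - 1 + 1)) = 0 := h
        rw [hv1] at h'
        rw [← h']
        exact (spec z a P cc (F j) v).symm
      · apply Polynomial.coeff_eq_zero_of_natDegree_lt
        have := (top_aeval (hF j) 1 g1 dg1).1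
        omega
  have hR : ∀ j, eval R (F j) = 0 := fun j => by
    have h := (top_aeval (hF j) 1 g1 dg1).2
    rw [z1 j, Polynomial.coeff_zero] at h
    have h2 : (fun i => (g1 i).coeff (1 * a i)) = R := funext fun i => by rw [one_mul]; exact top1 i
    rw [h2] at h
    exact h.symm
  have z2 : ∀ j, aeval g2 (F j) = 0 := fun j => by
    ext v
    rw [Polynomial.coeff_zero]
    rcases Nat.eq_zero_or_pos v with rfl | hv
    · exact cf0 g2 Q (fun i => crv_zero a Q y i) j (hQ j)
    · by_cases hvd : v - 1 < d j - 1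
      · have h := hz0 (Sum.inr ⟨j, ⟨v - 1, hvd⟩⟩)
        have hv1 : v - 1 + 1 = v := by omega
        have h' : eval z ((aeval G2 (F j)).coeff (v - 1 + 1)) = 0 := h
        rw [hv1] at h'
        rw [← h']
        exact (spec z a Q cd (F j) v).symm
      · have hT := top_aeval (hF j) 1 g2 dg2
        by_cases hv2 : v = d j
        · have h := hT.2
          have h2 : (fun i => (g2 i).coeff (1 * a i)) = R := funext fun i => by rw [one_mul]; exact top2 i
          rw [h2, hR j, one_mul] at h
          rw [hv2]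
          exact h
        · apply Polynomial.coeff_eq_zero_of_natDegree_lt
          have h1 := hT.1
          have := hd j
          omega
  have hR0 : R ≠ 0 := by
    intro h0
    have c1 : ∀ i, (g1 i).natDegree = 0 := const_of ha hF hfin g1 z1 fun i hi => by
      rw [Polynomial.natDegree_eq_zero_iff_degree_le_zero, Polynomial.degree_le_iff_coeff_zero]
      intro v hv
      have hv' : 0 < v := by exact_mod_cast hv
      by_cases hv1 : v = a i
      · rw [hv1, top1 i, h0]; rfl
      · apply Polynomial.coeff_eq_zero_of_natDegree_lt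
        have := dg1 i
        omega
    have c2 : ∀ i, (g2 i).natDegree = 0 := const_of ha hF hfin g2 z2 fun i hi => by
      rw [Polynomial.natDegree_eq_zero_iff_degree_le_zero, Polynomial.degree_le_iff_coeff_zero]
      intro v hv
      have hv' : 0 < v := by exact_mod_cast hv
      by_cases hv1 : v = a i
      · rw [hv1, top2 i, h0]; rfl
      · apply Polynomial.coeff_eq_zero_of_natDegree_lt
        have := dg2 i
        omega
    have x0 : ∀ i u, x i u = 0 := fun i u => by
      rw [← crv_succ a P x i u]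
      apply Polynomial.coeff_eq_zero_of_natDegree_lt
      have := c1 i
      show (g1 i).natDegree < _
      omega
    have y0 : ∀ i u, y i u = 0 := fun i u => by
      rw [← crv_succ a Q y i u]
      apply Polynomial.coeff_eq_zero_of_natDegree_lt
      have := c2 i
      show (g2 i).natDegree < _
      omega
    apply hz
    funext w
    rcases w with ⟨⟨i, u⟩, w⟩ | ⟨⟨i, u⟩, w⟩
    · have h := x0 i u
      have h' : eval z (rename (fun w : Fin (u.val + 1) => (Sum.inl ⟨⟨i, u⟩, w⟩ : Vr a)) (Nm u.val)) = 0 := h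
      rw [eval_rename] at h'
      exact congrFun (hNm0 _ _ h') w
    · have h := y0 i ⟨u.val, by have := u.isLt; omega⟩
      have h' : eval z (if h : u.val < a i - 1 then
        rename (fun w : Fin (u.val + 1) => (Sum.inr ⟨⟨i, ⟨u.val, h⟩⟩, w⟩ : Vr a)) (Nm u.val)
        else cc i ⟨u.val, by have := u.isLt; omega⟩) = 0 := h
      rw [dif_pos u.isLt, eval_rename] at h'
      exact congrFun (hNm0 _ _ h') w
  refine ⟨R, hR0, hR, ?_, ?_⟩
  · have h := lnk_of_curve ha hF g1 (fun i => crv_deg a P x i) z1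
    have e1 : (fun i => (g1 i).coeff 0) = P := funext fun i => crv_zero a P x i
    have e2 : (fun i => (g1 i).coeff (a i)) = R := funext fun i => top1 i
    rw [e1, e2] at h
    exact h
  · have h := lnk_of_curve ha hF g2 (fun i => crv_deg a Q y i) z2
    have e1 : (fun i => (g2 i).coeff 0) = Q := funext fun i => crv_zero a Q y i
    have e2 : (fun i => (g2 i).coeff (a i)) = R := funext fun i => top2 i
    rw [e1, e2] at h
    exact h

end Pool.Agent.Helper4.WR
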