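import Pool.Agent.Helper4.WR.Chain

/-!
# Chains of two rational curves of degree one
-/

set_option autoImplicit false
set_option linter.all false

namespace Pool.Agent.Helper4.WR

open MvPolynomial Pool.Agent.K369

variable {k : Type*} [Field k] {m r : ℕ}

theorem eval_zero' {a : Fin m → ℕ} (ha : ∀ i, 1 ≤ a i) {F : MvPolynomial (Fin m) k} {d : ℕ} (hd : 1 ≤ d)
    (hF : IsWeightedHomogeneous a F d) : eval (0 : Fin m → k) F = 0 := by
  rw [eval_eq']
  refine Finset.sum_eq_zero fun e he => ?_
  have h := weight_sum hF he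
  obtain ⟨i, hi⟩ : ∃ i, e i ≠ 0 := by
    by_contra hcon
    push Not at hcon
    rw [Finset.sum_eq_zero (fun i _ => by rw [hcon i, zero_mul])] at h
    omega
  rw [Finset.prod_eq_zero (Finset.mem_univ i) (by simp [hi]), mul_zero]

end Pool.Agent.Helper4.WR
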