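import Pool.Agent.Helper4.WR.Top

/-!
# Chains of two rational curves on weighted projective schemes over `C₁` fields
-/

set_option autoImplicit false
set_option linter.all false

namespace Pool.Agent.Helper4.WR

open MvPolynomial Pool.Agent.K369

/-- the curve `P i + ∑ x i u X ^ (u + 1)` -/
noncomputable def crv {A : Type*} [CommRing A] {m : ℕ} (a : Fin m → ℕ) (P : Fin m → A) (x : (i : Fin m) → Fin (a i) → A)
    (i : Fin m) : Polynomial A :=
  Polynomial.C (P i) + ∑ u : Fin (a i), Polynomial.C (x i u) * Polynomial.X ^ (u.val + 1)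

section crv

variable {A : Type*} [CommRing A] {m : ℕ} (a : Fin m → ℕ) (P : Fin m → A) (x : (i : Fin m) → Fin (a i) → A) (i : Fin m)

theorem crv_deg : (crv a P x i).natDegree ≤ a i := by
  unfold crv
  refine Polynomial.natDegree_add_le_of_degree_le (by simp) ?_
  refine Polynomial.natDegree_sum_le_of_forall_le _ _ fun u _ => ?_
  refine (Polynomial.natDegree_C_mul_X_pow_le _ _).trans ?_
  have := u.isLt
  omega

theorem crv_zero : (crv a P x i).coeff 0 = P i := by
  unfold crv
  rw [Polynomial.coeff_add, Polynomial.coeff_C_zero, Polynomial.finset_sum_coeff, Finset.sum_eq_zero, add_zero]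
  intro u _
  rw [Polynomial.coeff_C_mul_X_pow, if_neg (by omega)]

theorem crv_succ (u : Fin (a i)) : (crv a P x i).coeff (u.val + 1) = x i u := by
  unfold crv
  rw [Polynomial.coeff_add, Polynomial.coeff_C_succ, zero_add, Polynomial.finset_sum_coeff,
    Finset.sum_eq_single u]
  · rw [Polynomial.coeff_C_mul_X_pow, if_pos rfl]
  · intro v _ hv
    rw [Polynomial.coeff_C_mul_X_pow, if_neg]
    intro h
    exact hv (Fin.ext (by omega))
  · intro h
    exact absurd (Finset.mem_univ u) h

end crv

section Graded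

variable {k : Type*} [Field k] {V : Type*}

/-- the coefficient of `X ^ v` is a form of degree `v` -/
def Gr (p : Polynomial (MvPolynomial V k)) : Prop := ∀ v, (p.coeff v).IsHomogeneous v

theorem Gr.add {p q : Polynomial (MvPolynomial V k)} (hp : Gr p) (hq : Gr q) : Gr (p + q) := fun v => by
  rw [Polynomial.coeff_add]; exact (hp v).add (hq v)

theorem Gr.mul {p q : Polynomial (MvPolynomial V k)} (hp : Gr p) (hq : Gr q) : Gr (p * q) := fun v => by
  rw [Polynomial.coeff_mul]
  refine IsHomogeneous.sum _ _ _ fun x hx => ?_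
  rw [← Finset.HasAntidiagonal.mem_antidiagonal.1 hx]
  exact (hp x.1).mul (hq x.2)

theorem Gr.C_mul_X_pow {q : MvPolynomial V k} {v : ℕ} (hq : q.IsHomogeneous v) :
    Gr (Polynomial.C q * Polynomial.X ^ v) := fun w => by
  rw [Polynomial.coeff_C_mul_X_pow]
  split_ifs with h
  · rw [h]; exact hq
  · exact isHomogeneous_zero _ _ _

theorem Gr.C {c : k} : Gr (Polynomial.C (MvPolynomial.C c : MvPolynomial V k)) := by
  have h := Gr.C_mul_X_pow (V := V) (q := MvPolynomial.C c) (v := 0) (isHomogeneous_C _ _)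
  simpa using h

theorem Gr.sum {ι : Type*} (s : Finset ι) (p : ι → Polynomial (MvPolynomial V k)) (h : ∀ i ∈ s, Gr (p i)) :
    Gr (∑ i ∈ s, p i) := fun v => by
  rw [Polynomial.finset_sum_coeff]
  exact IsHomogeneous.sum _ _ _ fun i hi => h i hi v

theorem Gr.aeval {m : ℕ} (g : Fin m → Polynomial (MvPolynomial V k)) (hg : ∀ i, Gr (g i)) (F : MvPolynomial (Fin m) k) :
    Gr (MvPolynomial.aeval g F) := by
  induction F using MvPolynomial.induction_on with
  | C c =>
    have h : MvPolynomial.aeval g (MvPolynomial.C c) = Polynomial.C (MvPolynomial.C c : MvPolynomial V k) := by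
      rw [MvPolynomial.aeval_C]
      rfl
    rw [h]
    exact Gr.C
  | add p q hp hq => rw [map_add]; exact hp.add hq
  | mul_X p i hp => rw [map_mul, MvPolynomial.aeval_X]; exact hp.mul (hg i)

theorem Gr.crv {m : ℕ} (a : Fin m → ℕ) (P : Fin m → k) (x : (i : Fin m) → Fin (a i) → MvPolynomial V k)
    (hx : ∀ i u, (x i u).IsHomogeneous (u.val + 1)) (i : Fin m) :
    Gr (crv a (fun i => MvPolynomial.C (P i)) x i) :=
  Gr.C.add (Gr.sum _ _ fun u _ => Gr.C_mul_X_pow (hx i u))

/-- specialization -/
theorem spec {m : ℕ} (z : V → k) (a : Fin m → ℕ) (P : Fin m → k) (x : (i : Fin m) → Fin (a i) → MvPolynomial V k)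
    (F : MvPolynomial (Fin m) k) (v : ℕ) :
    eval z ((MvPolynomial.aeval (crv a (fun i => MvPolynomial.C (P i)) x) F).coeff v) =
      (MvPolynomial.aeval (WR.crv a P (fun i u => eval z (x i u))) F).coeff v := by
  have e2 : (Polynomial.mapAlgHom (MvPolynomial.aeval z : MvPolynomial V k →ₐ[k] k)).comp
      (MvPolynomial.aeval (WR.crv a (fun i => MvPolynomial.C (P i)) x)) =
      MvPolynomial.aeval (WR.crv a P (fun i u => eval z (x i u))) := by
    apply MvPolynomial.algHom_ext
    intro i
    rw [AlgHom.comp_apply, MvPolynomial.aeval_X, MvPolynomial.aeval_X]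
    unfold WR.crv
    rw [Polynomial.coe_mapAlgHom, Polynomial.map_add, Polynomial.map_C, Polynomial.map_sum]
    congr 1
    · simp
    · refine Finset.sum_congr rfl fun u _ => ?_
      rw [Polynomial.map_mul, Polynomial.map_C, Polynomial.map_pow, Polynomial.map_X]
      rfl
  rw [← e2, AlgHom.comp_apply, Polynomial.coe_mapAlgHom, Polynomial.coeff_map]
  rfl

end Graded

/-- `∑_{u < n} (u + 1) + ∑_{u < n - 1} (u + 1) = n ^ 2` -/
theorem tri (n : ℕ) : (∑ u : Fin n, (u.val + 1)) + ∑ u : Fin (n - 1), (u.val + 1) = n ^ 2 := by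
  rw [Fin.sum_univ_eq_sum_range (fun u => u + 1), Fin.sum_univ_eq_sum_range (fun u => u + 1)]
  induction n with
  | zero => simp
  | succ n ih =>
    rcases n with _ | n
    · simp
    · simp only [Nat.add_sub_cancel] at ih ⊢
      rw [Finset.sum_range_succ, Finset.sum_range_succ (fun u => u + 1) n] at *
      nlinarith [ih]

end Pool.Agent.Helper4.WR
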