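import Pool.Graph.R_pool_sql_team_seeded_620a6dc7.K369.C1
import Pool.Graph.R_pool_sql_team_seeded_620a6dc7.K369.Link

/-!
# Rational curves on weighted projective schemes: degrees and leading coefficients
-/

set_option autoImplicit false
set_option linter.all false

namespace Pool.Agent.Helper4.WR

open MvPolynomial Pool.Agent.K369

section Top

variable {A : Type*} [CommRing A]

/-- the degree of `p` is at most `N`, and `c` is the coefficient of `X ^ N` -/
def Top (p : Polynomial A) (N : ℕ) (c : A) : Prop := p.natDegree ≤ N ∧ p.coeff N = c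

theorem Top.mul {p q : Polynomial A} {N M : ℕ} {c d : A} (hp : Top p N c) (hq : Top q M d) :
    Top (p * q) (N + M) (c * d) :=
  ⟨Polynomial.natDegree_mul_le_of_le hp.1 hq.1, by
    rw [Polynomial.coeff_mul_add_eq_of_natDegree_le hp.1 hq.1, hp.2, hq.2]⟩

theorem Top.one : Top (1 : Polynomial A) 0 1 := ⟨by simp, by simp⟩

theorem Top.pow {p : Polynomial A} {N : ℕ} {c : A} (hp : Top p N c) (e : ℕ) : Top (p ^ e) (e * N) (c ^ e) := by
  induction e with
  | zero => simpa using Top.one
  | succ e ih => rw [pow_succ, pow_succ, Nat.succ_mul]; exact ih.mul hp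

theorem Top.prod {ι : Type*} (s : Finset ι) (p : ι → Polynomial A) (N : ι → ℕ) (c : ι → A)
    (h : ∀ i ∈ s, Top (p i) (N i) (c i)) : Top (∏ i ∈ s, p i) (∑ i ∈ s, N i) (∏ i ∈ s, c i) := by
  classical
  induction s using Finset.induction_on with
  | empty => simpa using Top.one
  | insert a s ha ih =>
    rw [Finset.prod_insert ha, Finset.prod_insert ha, Finset.sum_insert ha]
    exact (h a (Finset.mem_insert_self _ _)).mul (ih fun i hi => h i (Finset.mem_insert_of_mem hi))

theorem Top.C_mul {p : Polynomial A} {N : ℕ} {c : A} (hp : Top p N c) (b : A) : Top (Polynomial.C b * p) N (b * c) :=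
  ⟨(Polynomial.natDegree_C_mul_le _ _).trans hp.1, by rw [Polynomial.coeff_C_mul, hp.2]⟩

theorem Top.sum {ι : Type*} (s : Finset ι) (p : ι → Polynomial A) (N : ℕ) (c : ι → A)
    (h : ∀ i ∈ s, Top (p i) N (c i)) : Top (∑ i ∈ s, p i) N (∑ i ∈ s, c i) :=
  ⟨Polynomial.natDegree_sum_le_of_forall_le _ _ fun i hi => (h i hi).1, by
    rw [Polynomial.finset_sum_coeff]
    exact Finset.sum_congr rfl fun i hi => (h i hi).2⟩

end Top

variable {k : Type*} [Field k] {m : ℕ}

theorem weight_sum {a : Fin m → ℕ} {F : MvPolynomial (Fin m) k} {d : ℕ} (hF : IsWeightedHomogeneous a F d)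
    {e : Fin m →₀ ℕ} (he : e ∈ F.support) : ∑ i, e i * a i = d := by
  have h := hF (mem_support_iff.1 he)
  rw [Finsupp.weight_apply, Finsupp.sum_fintype _ _ (by simp)] at h
  simpa using h

theorem top_aeval {a : Fin m → ℕ} {F : MvPolynomial (Fin m) k} {d : ℕ} (hF : IsWeightedHomogeneous a F d) (N : ℕ)
    (g : Fin m → Polynomial k) (hg : ∀ i, (g i).natDegree ≤ N * a i) :
    Top (aeval g F) (N * d) (eval (fun i => (g i).coeff (N * a i)) F) := by
  rw [aeval_def, eval₂_eq', eval_eq']
  refine Top.sum _ _ _ _ fun e he => ?_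
  refine Top.C_mul ?_ _
  have h := Top.prod Finset.univ (fun i => g i ^ e i) (fun i => e i * (N * a i))
    (fun i => (g i).coeff (N * a i) ^ e i) (fun i _ => Top.pow (p := g i) ⟨hg i, rfl⟩ (e i))
  have h2 : ∑ i, e i * (N * a i) = N * d := by
    rw [← weight_sum hF he, Finset.mul_sum]
    exact Finset.sum_congr rfl fun i _ => by ring
  rw [h2] at h
  exact h

/-- forms in weighted homogeneous polynomials -/
theorem hom_bind₁ {a : Fin m → ℕ} {F : MvPolynomial (Fin m) k} {d : ℕ} (hF : IsWeightedHomogeneous a F d) (N : ℕ)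
    (φ : Fin m → MvPolynomial (Fin 2) k) (hφ : ∀ i, (φ i).IsHomogeneous (N * a i)) :
    (bind₁ φ F).IsHomogeneous (N * d) := by
  have h0 : bind₁ φ F = ∑ e ∈ F.support, C (F.coeff e) * ∏ i, φ i ^ e i := by
    show aeval φ F = _
    rw [aeval_def, eval₂_eq']
    rfl
  rw [h0]
  refine IsHomogeneous.sum _ _ _ fun e he => ?_
  have h2 : N * d = 0 + ∑ i, (N * a i) * e i := by
    rw [← weight_sum hF he, Finset.mul_sum, zero_add]
    exact Finset.sum_congr rfl fun i _ => by ring
  rw [h2]
  refine (isHomogeneous_C _ _).mul ?_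
  exact IsHomogeneous.prod _ _ _ fun i _ => (hφ i).pow (e i)

/-- curves with only constant coordinates of weight `1` are constant -/
theorem const_of {r : ℕ} {a : Fin m → ℕ} (ha : ∀ i, 1 ≤ a i) {F : Fin r → MvPolynomial (Fin m) k} {d : Fin r → ℕ}
    (hF : ∀ j, IsWeightedHomogeneous a (F j) (d j))
    (hfin : ∀ x : Fin m → k, (∀ j, eval x (F j) = 0) → (∀ i, a i = 1 → x i = 0) → x = 0)
    (g : Fin m → Polynomial k) (hg : ∀ j, aeval g (F j) = 0) (hg1 : ∀ i, a i = 1 → (g i).natDegree = 0) (i : Fin m) :
    (g i).natDegree = 0 := by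
  by_contra hne
  -- the coordinate with maximal slope
  obtain ⟨i₀, -, hmax⟩ := Finset.exists_max_image (Finset.univ : Finset (Fin m))
    (fun i => ((g i).natDegree : ℚ) / a i) ⟨i, Finset.mem_univ i⟩
  have hpos : ∀ i, (0 : ℚ) < a i := fun i => by exact_mod_cast ha i
  have hle : ∀ i, (g i).natDegree * a i₀ ≤ (g i₀).natDegree * a i := fun i => by
    have h := hmax i (Finset.mem_univ i)
    rw [div_le_div_iff₀ (hpos i) (hpos i₀)] at h
    exact_mod_cast h
  have hN : 0 < (g i₀).natDegree := by
    by_contra h0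
    have h1 : (g i₀).natDegree = 0 := by omega
    have h2 := hle i
    rw [h1, zero_mul] at h2
    have h3 := ha i₀
    have h4 : (g i).natDegree * a i₀ = 0 := by omega
    rcases Nat.mul_eq_zero.1 h4 with h | h
    · exact hne h
    · omega
  set N := (g i₀).natDegree with hNdef
  let h : Fin m → Polynomial k := fun i => Polynomial.expand k (a i₀) (g i)
  have hdeg : ∀ i, (h i).natDegree ≤ N * a i := fun i => by
    show (Polynomial.expand k (a i₀) (g i)).natDegree ≤ _
    rw [Polynomial.natDegree_expand]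
    exact hle i
  have hz : ∀ j, aeval h (F j) = 0 := fun j => by
    have e1 : (Polynomial.expand k (a i₀)) (aeval g (F j)) = aeval h (F j) := by
      have e2 : (Polynomial.expand k (a i₀)).comp (aeval g) = aeval h := by
        apply MvPolynomial.algHom_ext
        intro i
        simp [h]
      rw [← e2]
      rfl
    rw [← e1, hg j, map_zero]
  have hy : (fun i => (h i).coeff (N * a i)) = 0 := by
    apply hfin
    · intro j
      have := (top_aeval (hF j) N h hdeg).2
      rw [hz j, Polynomial.coeff_zero] at this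
      exact this.symm
    · intro i hi
      apply Polynomial.coeff_eq_zero_of_natDegree_lt
      show (Polynomial.expand k (a i₀) (g i)).natDegree < _
      rw [Polynomial.natDegree_expand, hg1 i hi, zero_mul]
      exact Nat.mul_pos hN (ha i)
  have h5 := congrFun hy i₀
  have h6 : (h i₀).coeff (N * a i₀) = (g i₀).leadingCoeff := by
    show (Polynomial.expand k (a i₀) (g i₀)).coeff _ = _
    rw [Polynomial.coeff_expand_mul (ha i₀)]
    rfl
  simp only [Pi.zero_apply] at h5
  rw [h6] at h5
  rw [Polynomial.leadingCoeff_eq_zero] at h5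
  rw [h5] at hNdef
  simp at hNdef
  omega

end Pool.Agent.Helper4.WR
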